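import Pool.Agent.H334R2.CM.Defs
set_option autoImplicit false
open scoped Matrix MatrixGroups
universe u
namespace CM
namespace KPART

section
variable {k : Type u} [Field k] {N K : Type} [Group N] [Group K] {φ : K →* MulAut N}

/-- `inN` as an algebra homomorphism -/
noncomputable def jN (k : Type u) [Field k] (φ : K →* MulAut N) :
    MonoidAlgebra k N →ₐ[k] MonoidAlgebra k (N ⋊[φ] K) :=
  MonoidAlgebra.mapDomainAlgHom k k (SemidirectProduct.inl : N →* N ⋊[φ] K)

/-- `inK` as an algebra homomorphism -/
noncomputable def jK (k : Type u) [Field k] (φ : K →* MulAut N) :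
    MonoidAlgebra k K →ₐ[k] MonoidAlgebra k (N ⋊[φ] K) :=
  MonoidAlgebra.mapDomainAlgHom k k (SemidirectProduct.inr : K →* N ⋊[φ] K)

/-- the projection to `k K` -/
noncomputable def pr (k : Type u) [Field k] (φ : K →* MulAut N) :
    MonoidAlgebra k (N ⋊[φ] K) →ₐ[k] MonoidAlgebra k K :=
  MonoidAlgebra.mapDomainAlgHom k k (SemidirectProduct.rightHom : N ⋊[φ] K →* K)

lemma jN_eq (x : MonoidAlgebra k N) : jN k φ x = inN φ x := rfl
lemma jK_eq (x : MonoidAlgebra k K) : jK k φ x = inK φ x := rfl

lemma jN_single (n : N) (r : k) : jN k φ (MonoidAlgebra.single n r) =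
    MonoidAlgebra.single (SemidirectProduct.inl n) r := by
  change MonoidAlgebra.mapDomain _ _ = _
  rw [MonoidAlgebra.mapDomain_single]

lemma jK_single (g : K) (r : k) : jK k φ (MonoidAlgebra.single g r) =
    MonoidAlgebra.single (SemidirectProduct.inr g) r := by
  change MonoidAlgebra.mapDomain _ _ = _
  rw [MonoidAlgebra.mapDomain_single]

lemma pr_single (y : N ⋊[φ] K) (r : k) : pr k φ (MonoidAlgebra.single y r) =
    MonoidAlgebra.single y.right r := by
  change MonoidAlgebra.mapDomain _ _ = _
  rw [MonoidAlgebra.mapDomain_single]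
  rfl

lemma pr_jK (x : MonoidAlgebra k K) : pr k φ (jK k φ x) = x := by
  induction x using MonoidAlgebra.induction_linear with
  | zero => simp
  | add x y hx hy => rw [map_add, map_add, hx, hy]
  | single g r => rw [jK_single, pr_single, SemidirectProduct.right_inr]

lemma pr_jN (x : MonoidAlgebra k N) : ∃ c : k, pr k φ (jN k φ x) = c • (1 : MonoidAlgebra k K) := by
  induction x using MonoidAlgebra.induction_linear with
  | zero => exact ⟨0, by simp⟩
  | add x y hx hy =>
    obtain ⟨c, hc⟩ := hx
    obtain ⟨d, hd⟩ := hy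
    exact ⟨c + d, by rw [map_add, map_add, hc, hd, add_smul]⟩
  | single g r =>
    refine ⟨r, ?_⟩
    rw [jN_single, pr_single, SemidirectProduct.right_inl, MonoidAlgebra.one_def,
      MonoidAlgebra.smul_single, smul_eq_mul, mul_one]

lemma single_split (y : N ⋊[φ] K) (r : k) : MonoidAlgebra.single y r =
    r • (jN k φ (MonoidAlgebra.single y.left 1) * jK k φ (MonoidAlgebra.single y.right 1)) := by
  rw [jN_single, jK_single, MonoidAlgebra.single_mul_single, SemidirectProduct.inl_left_mul_inr_right,
    MonoidAlgebra.smul_single, smul_eq_mul, mul_one, mul_one]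

lemma jK_jN (g : K) (x : MonoidAlgebra k N) :
    jK k φ (MonoidAlgebra.single g 1) * jN k φ x =
      jN k φ (MonoidAlgebra.mapDomain (φ g) x) * jK k φ (MonoidAlgebra.single g 1) := by
  induction x using MonoidAlgebra.induction_linear with
  | zero => simp
  | add x y hx hy => rw [map_add, mul_add, hx, hy, MonoidAlgebra.mapDomain_add, map_add, add_mul]
  | single n r =>
    rw [MonoidAlgebra.mapDomain_single, jN_single, jN_single, jK_single, MonoidAlgebra.single_mul_single,
      MonoidAlgebra.single_mul_single, one_mul, mul_one]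
    congr 1
    rw [SemidirectProduct.inl_aut]
    simp

end

section
variable {k : Type u} [Field k] {N K : Type} [Group N] [Group K]
  {φ : K →* MulAut N} {F : MonoidAlgebra k N}

/-- the hypotheses on `F = f l0` -/
structure HF (φ : K →* MulAut N) (F : MonoidAlgebra k N) : Prop where
  ne : F ≠ 0
  idem : F * F = F
  central : ∀ x, F * x = x * F
  triv : ∀ n : N, MonoidAlgebra.single n 1 * F = F
  inv : ∀ g, MonoidAlgebra.mapDomain (φ g) F = F

lemma idem' (h : HF φ F) : jN k φ F * jN k φ F = jN k φ F := by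
  rw [← map_mul, h.idem]

lemma comm_N (h : HF φ F) (x : MonoidAlgebra k N) : jN k φ F * jN k φ x = jN k φ x * jN k φ F := by
  rw [← map_mul, h.central, map_mul]

lemma comm_K (h : HF φ F) (x : MonoidAlgebra k K) : jN k φ F * jK k φ x = jK k φ x * jN k φ F := by
  induction x using MonoidAlgebra.induction_linear with
  | zero => simp
  | add x y hx hy => rw [map_add, mul_add, hx, hy, add_mul]
  | single g r =>
    have h1 := jK_jN g F (φ := φ)
    rw [h.inv] at h1
    have h2 : MonoidAlgebra.single g r = r • (MonoidAlgebra.single g 1 : MonoidAlgebra k K) := by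
      rw [MonoidAlgebra.smul_single, smul_eq_mul, mul_one]
    rw [h2, map_smul, mul_smul_comm, smul_mul_assoc, h1]

lemma comm (h : HF φ F) (y : MonoidAlgebra k (N ⋊[φ] K)) : jN k φ F * y = y * jN k φ F := by
  induction y using MonoidAlgebra.induction_linear with
  | zero => simp
  | add x y hx hy => rw [mul_add, hx, hy, add_mul]
  | single g r =>
    rw [single_split, mul_smul_comm, smul_mul_assoc, ← mul_assoc, comm_N h, mul_assoc, comm_K h, mul_assoc]

lemma absorb (h : HF φ F) (y : MonoidAlgebra k (N ⋊[φ] K)) :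
    jN k φ F * y = jN k φ F * jK k φ (pr k φ y) := by
  induction y using MonoidAlgebra.induction_linear with
  | zero => simp
  | add x y hx hy => rw [mul_add, hx, hy, map_add, map_add, mul_add]
  | single g r =>
    have h1 : jN k φ F * jN k φ (MonoidAlgebra.single g.left 1) = jN k φ F := by
      rw [comm_N h, ← map_mul, h.triv]
    have h2 : pr k φ (MonoidAlgebra.single g r) = r • MonoidAlgebra.single g.right 1 := by
      rw [pr_single, MonoidAlgebra.smul_single, smul_eq_mul, mul_one]
    rw [h2, map_smul, single_split, mul_smul_comm, mul_smul_comm, ← mul_assoc, h1]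

lemma jN_inj : Function.Injective (jN k φ) :=
  MonoidAlgebra.mapDomain_injective SemidirectProduct.inl_injective

lemma pr_F (h : HF φ F) : pr k φ (jN k φ F) = 1 := by
  obtain ⟨c, hc⟩ := pr_jN F (φ := φ)
  have h1 := absorb h (jN k φ F)
  rw [idem' h, hc, map_smul, map_one, mul_smul_comm, mul_one] at h1
  have h2 : (1 - c) • jN k φ F = 0 := by
    rw [sub_smul, one_smul, ← h1, sub_self]
  rcases smul_eq_zero.1 h2 with h3 | h3
  · rw [hc, ← sub_eq_zero.1 h3, one_smul]
  · exact absurd (jN_inj (h3.trans (map_zero _).symm)) h.ne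

/-- the embedding `x ↦ F x` -/
noncomputable def j (φ : K →* MulAut N) (F : MonoidAlgebra k N) :
    MonoidAlgebra k K →ₗ[k] MonoidAlgebra k (N ⋊[φ] K) :=
  (LinearMap.mulLeft k (jN k φ F)).comp (jK k φ).toLinearMap

lemma j_apply (x : MonoidAlgebra k K) : j φ F x = jN k φ F * jK k φ x := rfl

lemma pr_j (h : HF φ F) (x : MonoidAlgebra k K) : pr k φ (j φ F x) = x := by
  rw [j_apply, map_mul, pr_F h, one_mul, pr_jK]

lemma j_mul (h : HF φ F) (x y : MonoidAlgebra k K) : j φ F x * j φ F y = j φ F (x * y) := by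
  rw [j_apply, j_apply, j_apply, map_mul, ← mul_assoc, mul_assoc (jN k φ F), ← comm h, ← mul_assoc,
    idem' h, mul_assoc]

lemma j_pr (h : HF φ F) (y : MonoidAlgebra k (N ⋊[φ] K)) : j φ F (pr k φ y) = jN k φ F * y := by
  rw [j_apply, ← absorb h]

lemma F_j (h : HF φ F) (x : MonoidAlgebra k K) : jN k φ F * j φ F x = j φ F x := by
  rw [j_apply, ← mul_assoc, idem' h]

lemma j_pow (h : HF φ F) (x : MonoidAlgebra k K) (n : ℕ) : j φ F x ^ (n + 1) = j φ F (x ^ (n + 1)) := by
  induction n with
  | zero => simp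
  | succ n ih => rw [pow_succ, ih, j_mul h, ← pow_succ]

lemma cor_fix (h : HF φ F) {e e' : MonoidAlgebra k K} {x : MonoidAlgebra k (N ⋊[φ] K)}
    (hx : x ∈ cor k (j φ F e) (j φ F e')) : j φ F (pr k φ x) = x ∧ pr k φ x ∈ cor k e e' := by
  rw [mem_cor] at hx
  refine ⟨?_, ?_⟩
  · rw [j_pr h, ← hx.1, ← mul_assoc, F_j h]
  · rw [mem_cor]
    constructor
    · conv_rhs => rw [← hx.1, map_mul, pr_j h]
    · conv_rhs => rw [← hx.2, map_mul, pr_j h]

lemma j_cor (h : HF φ F) {e e' x : MonoidAlgebra k K} (hx : x ∈ cor k e e') :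
    j φ F x ∈ cor k (j φ F e) (j φ F e') := by
  rw [mem_cor] at hx ⊢
  rw [j_mul h, j_mul h, hx.1, hx.2]
  exact ⟨rfl, rfl⟩

lemma isLoc (h : HF φ F) {e : MonoidAlgebra k K} (he : IsLoc k e) : IsLoc k (j φ F e) := by
  obtain ⟨h0, h1, h2⟩ := he
  refine ⟨?_, by rw [j_mul h, h1], ?_⟩
  · intro h3
    apply h0
    rw [← pr_j h e, h3, map_zero]
  · intro x hx
    obtain ⟨hx1, hx2⟩ := cor_fix h hx
    obtain ⟨c, n, hc⟩ := h2 _ hx2
    refine ⟨c, n + 1, ?_⟩
    rw [← hx1, ← map_smul, ← map_sub, j_pow h, pow_succ, hc, zero_mul, map_zero]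

noncomputable def corEquiv (h : HF φ F) (e e' : MonoidAlgebra k K) :
    cor k e e' ≃ₗ[k] cor k (j φ F e) (j φ F e') :=
  LinearEquiv.ofBijective ((j φ F).restrict (fun _ hx => j_cor h hx)) (by
    constructor
    · rintro ⟨x, hx⟩ ⟨y, hy⟩ hxy
      apply Subtype.ext
      have h1 : j φ F x = j φ F y := congrArg Subtype.val hxy
      change x = y
      rw [← pr_j h x, h1, pr_j h]
    · rintro ⟨x, hx⟩
      obtain ⟨hx1, hx2⟩ := cor_fix h hx
      exact ⟨⟨pr k φ x, hx2⟩, Subtype.ext hx1⟩)

lemma simple (h : HF φ F) (ι : Type) (e : ι → MonoidAlgebra k K)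
    (he : ∀ (M : Type u) [AddCommGroup M] [Module (MonoidAlgebra k K) M],
        IsSimpleModule (MonoidAlgebra k K) M → ∃ i, ∃ m : M, e i • m ≠ 0)
    (M : Type u) [AddCommGroup M] [Module (MonoidAlgebra k (N ⋊[φ] K)) M]
    (hM : IsSimpleModule (MonoidAlgebra k (N ⋊[φ] K)) M) (hm : ∃ m : M, jN k φ F • m ≠ 0) :
    ∃ i, ∃ m : M, j φ F (e i) • m ≠ 0 := by
  -- `F` acts as the identity
  have hF : ∀ m : M, jN k φ F • m = m := by
    let X : Submodule (MonoidAlgebra k (N ⋊[φ] K)) M :=
      { carrier := {m | jN k φ F • m = m}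
        add_mem' := by
          intro a b ha hb
          change jN k φ F • (a + b) = a + b
          rw [smul_add, show jN k φ F • a = a from ha, show jN k φ F • b = b from hb]
        zero_mem' := smul_zero _
        smul_mem' := by
          intro c m hm
          change jN k φ F • c • m = c • m
          rw [← mul_smul, comm h, mul_smul, show jN k φ F • m = m from hm] }
    have hX : X = ⊤ := by
      rcases eq_bot_or_eq_top X with hX | hX
      · exfalso
        obtain ⟨m, hm⟩ := hm
        apply hm
        have h1 : jN k φ F • m ∈ X := by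
          change jN k φ F • jN k φ F • m = jN k φ F • m
          rw [← mul_smul, idem' h]
        rw [hX] at h1
        exact (Submodule.mem_bot _).1 h1
      · exact hX
    intro m
    have : m ∈ X := by rw [hX]; trivial
    exact this
  letI : Module (MonoidAlgebra k K) M := Module.compHom M (jK k φ).toRingHom
  have hsm : ∀ (x : MonoidAlgebra k K) (m : M), x • m = jK k φ x • m := fun _ _ => rfl
  have hsm2 : ∀ (y : MonoidAlgebra k (N ⋊[φ] K)) (m : M), y • m = pr k φ y • m := by
    intro y m
    rw [hsm]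
    conv_lhs => rw [← hF m, ← mul_smul, ← comm h, absorb h, mul_smul, hF]
  have hS : IsSimpleModule (MonoidAlgebra k K) M := by
    haveI : Nontrivial M := IsSimpleModule.nontrivial (MonoidAlgebra k (N ⋊[φ] K)) M
    haveI : IsSimpleOrder (Submodule (MonoidAlgebra k K) M) :=
      { exists_pair_ne := ⟨⊥, ⊤, bot_ne_top⟩
        eq_bot_or_eq_top := by
          intro Y
          let Y' : Submodule (MonoidAlgebra k (N ⋊[φ] K)) M :=
            { carrier := {m | m ∈ Y}
              add_mem' := fun ha hb => Y.add_mem ha hb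
              zero_mem' := Y.zero_mem
              smul_mem' := by
                intro c m hm
                change c • m ∈ Y
                rw [hsm2]
                exact Y.smul_mem _ hm }
          rcases eq_bot_or_eq_top Y' with hY | hY
          · left
            rw [Submodule.eq_bot_iff]
            intro m hm
            have : m ∈ Y' := hm
            rw [hY] at this
            exact (Submodule.mem_bot _).1 this
          · right
            rw [Submodule.eq_top_iff']
            intro m
            have : m ∈ Y' := by rw [hY]; trivial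
            exact this }
    exact ⟨⟩
  obtain ⟨i, m, hi⟩ := he M hS
  refine ⟨i, m, ?_⟩
  rw [j_apply, mul_smul, hF]
  exact hi

end

end KPART

section
variable {k : Type u} [Field k] {N K : Type} [Group N] [Group K] [Finite N] [Finite K]
  {φ : K →* MulAut N} {L : Type} [Fintype L] [DecidableEq L] {a : K →* Equiv.Perm L}
  {z f : L → MonoidAlgebra k N}

/-- the part over the trivial character of `N` -/
theorem KPART (h : Blocks φ a z f) (l0 : L) (h0 : f l0 = z l0)
    (h1 : ∀ x : N, MonoidAlgebra.single x 1 * f l0 = f l0) (hl : ∀ g, a g l0 = l0) :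
    (∀ e : MonoidAlgebra k K, IsLoc k e → IsLoc k (inN φ (f l0) * inK φ e)) ∧
    (∀ e e' : MonoidAlgebra k K, e * e = e → e' * e' = e' →
      Module.finrank k (cor k (inN φ (f l0) * inK φ e) (inN φ (f l0) * inK φ e')) =
        Module.finrank k (cor k e e')) ∧
    (∀ e : MonoidAlgebra k K, inN φ (f l0) * inK φ e ∈ cor k (inN φ (f l0)) (inN φ (f l0))) ∧
    ∀ (ι : Type) (e : ι → MonoidAlgebra k K),
      (∀ (M : Type u) [AddCommGroup M] [Module (MonoidAlgebra k K) M],
        IsSimpleModule (MonoidAlgebra k K) M → ∃ i, ∃ m : M, e i • m ≠ 0) →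
      ∀ (M : Type u) [AddCommGroup M] [Module (MonoidAlgebra k (N ⋊[φ] K)) M],
        IsSimpleModule (MonoidAlgebra k (N ⋊[φ] K)) M → (∃ m : M, inN φ (f l0) • m ≠ 0) →
        ∃ i, ∃ m : M, (inN φ (f l0) * inK φ (e i)) • m ≠ 0 := by
  have hF : KPART.HF φ (f l0) :=
    { ne := h.hf0 l0
      idem := h.hf l0
      central := fun x => by rw [h0]; exact h.hzc l0 x
      triv := h1
      inv := fun g => by rw [h0, h.hφ, hl] }
  refine ⟨fun e he => KPART.isLoc hF he, fun e e' _ _ => ?_, fun e => ?_, ?_⟩
  · exact (KPART.corEquiv hF e e').finrank_eq.symm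
  · rw [mem_cor]
    refine ⟨KPART.F_j hF e, ?_⟩
    have h2 := KPART.F_j hF e
    rw [KPART.comm hF] at h2
    exact h2
  · intro ι e he M _ _ hM hm
    exact KPART.simple hF ι e he M hM hm

end

end CM
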